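import Mathlib
import Pool.Agent.W164.MO.Defs

/-!
# Triangle functions in residue classes (for S_SN3 of project MO)
-/

set_option autoImplicit false

namespace Pool.Agent.W150.MO

open Finset
open Pool.Agent.W164.MO (b2 S_SN1 S_SN2)
open ArithmeticFunction (vonMangoldt)

/-- the triangle function -/
noncomputable def tri (Δ y x : ℝ) : ℝ := max 0 (1 - |y - x| / Δ)

lemma tri_nonneg (Δ y x : ℝ) : 0 ≤ tri Δ y x := le_max_left _ _

lemma tri_le_one {Δ : ℝ} (hΔ : 0 < Δ) (y x : ℝ) : tri Δ y x ≤ 1 := by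
  unfold tri
  have : 0 ≤ |y - x| / Δ := by positivity
  exact max_le zero_le_one (by linarith)

lemma tri_eq_zero {Δ : ℝ} (hΔ : 0 < Δ) {y x : ℝ} (h : Δ ≤ |y - x|) : tri Δ y x = 0 := by
  unfold tri
  have : 1 ≤ |y - x| / Δ := by rwa [one_le_div hΔ]
  exact max_eq_left (by linarith)

lemma lt_of_tri_pos {Δ : ℝ} (hΔ : 0 < Δ) {y x : ℝ} (h : 0 < tri Δ y x) : |y - x| < Δ := by
  by_contra hc
  rw [tri_eq_zero hΔ (not_lt.1 hc)] at h
  exact lt_irrefl _ h

lemma tri_sum (Δ y : ℝ) (d r M : ℕ) (hΔ : 0 < Δ) (hΔ2 : Δ ≤ 1 / 2) (hd : 1 ≤ d) (hy : 1 ≤ y)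
    (hM : y + 1 ≤ M) :
    ∑ n ∈ (range M).filter (fun n => n ≡ r [MOD d]), tri Δ y n =
      max 0 (1 - Int.fract ((y - r) / d) / (Δ / d)) +
        max 0 (1 - (1 - Int.fract ((y - r) / d)) / (Δ / d)) := by
  classical
  have hd0 : (0 : ℝ) < d := by exact_mod_cast hd
  have hd1 : (1 : ℝ) ≤ d := by exact_mod_cast hd
  set z : ℝ := (y - r) / d with hz
  have hyz : y = r + d * z := by rw [hz]; field_simp; ring
  set m0 : ℤ := ⌊z⌋ with hm0
  set n0 : ℤ := r + d * m0 with hn0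
  set n1 : ℤ := r + d * (m0 + 1) with hn1
  have hfr : Int.fract z = z - m0 := rfl
  have hfr0 : 0 ≤ Int.fract z := Int.fract_nonneg z
  have hfr1 : Int.fract z < 1 := Int.fract_lt_one z
  have e0 : y - n0 = d * Int.fract z := by
    rw [hfr, hn0]; push_cast; rw [hyz]; ring
  have e1 : y - n1 = -(d * (1 - Int.fract z)) := by
    rw [hfr, hn1]; push_cast; rw [hyz]; ring
  have t0 : tri Δ y n0 = max 0 (1 - Int.fract z / (Δ / d)) := by
    unfold tri
    rw [e0, abs_of_nonneg (by positivity)]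
    congr 2
    field_simp
  have t1 : tri Δ y n1 = max 0 (1 - (1 - Int.fract z) / (Δ / d)) := by
    unfold tri
    have h1 : 0 ≤ 1 - Int.fract z := by linarith
    rw [e1, abs_neg, abs_of_nonneg (by positivity)]
    congr 2
    field_simp
  rw [← t0, ← t1]
  set S : Finset ℤ := ((range M).filter (fun n => n ≡ r [MOD d])).map Nat.castEmbedding with hS
  have hsum : ∑ n ∈ (range M).filter (fun n => n ≡ r [MOD d]), tri Δ y n = ∑ k ∈ S, tri Δ y (k : ℝ) := by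
    rw [hS, sum_map]
    rfl
  rw [hsum]
  have hne : n0 ≠ n1 := by
    intro h
    rw [hn0, hn1] at h
    have : (d : ℤ) = 0 := by linarith
    omega
  have hpair : tri Δ y n0 + tri Δ y n1 = ∑ k ∈ ({n0, n1} : Finset ℤ), tri Δ y (k : ℝ) := by
    rw [sum_pair hne]
  rw [hpair]
  have memS : ∀ k : ℤ, k ∈ S ↔ 0 ≤ k ∧ k < M ∧ (d : ℤ) ∣ k - r := by
    intro k
    rw [hS, mem_map]
    constructor
    · rintro ⟨n, hn, rfl⟩
      rw [mem_filter, mem_range] at hn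
      refine ⟨by simp, by simpa using hn.1, ?_⟩
      have := (Nat.modEq_iff_dvd.1 hn.2)
      have h2 := (dvd_neg.2 this)
      simpa using h2
    · rintro ⟨h0, h1, h2⟩
      refine ⟨k.toNat, ?_, ?_⟩
      · rw [mem_filter, mem_range]
        refine ⟨by omega, ?_⟩
        rw [Nat.modEq_iff_dvd]
        have : ((k.toNat : ℕ) : ℤ) = k := Int.toNat_of_nonneg h0
        rw [this]
        have h3 := dvd_neg.2 h2
        simpa using h3
      · simp [Int.toNat_of_nonneg h0]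
  rw [← sum_subset (inter_subset_left : S ∩ {n0, n1} ⊆ S), ← sum_subset (inter_subset_right : S ∩ {n0, n1} ⊆ {n0, n1})]
  · intro k hk hk'
    have hkS : k ∉ S := fun h => hk' (mem_inter.2 ⟨h, hk⟩)
    rw [memS] at hkS
    have hdv : (d : ℤ) ∣ k - r := by
      rw [mem_insert, mem_singleton] at hk
      rcases hk with rfl | rfl
      · exact ⟨m0, by rw [hn0]; ring⟩
      · exact ⟨m0 + 1, by rw [hn1]; ring⟩
    apply tri_eq_zero hΔ
    by_cases h0 : 0 ≤ k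
    · have hkM : (M : ℤ) ≤ k := by
        by_contra hc
        exact hkS ⟨h0, by omega, hdv⟩
      have : (M : ℝ) ≤ k := by exact_mod_cast hkM
      rw [abs_sub_comm]
      exact le_trans (by linarith) (le_abs_self _)
    · have : (k : ℝ) ≤ 0 := by
        have : k ≤ 0 := by omega
        exact_mod_cast this
      exact le_trans (by linarith) (le_abs_self _)
  · intro k hk hk'
    have hk0 : k ∉ ({n0, n1} : Finset ℤ) := fun h => hk' (mem_inter.2 ⟨hk, h⟩)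
    rw [mem_insert, mem_singleton, not_or] at hk0
    obtain ⟨m, hm⟩ := ((memS k).1 hk).2.2
    have hk1 : k = r + d * m := by linarith
    have hmm0 : m ≠ m0 := by
      rintro rfl
      exact hk0.1 (by rw [hn0]; exact hk1)
    have hmm1 : m ≠ m0 + 1 := by
      rintro rfl
      exact hk0.2 (by rw [hn1]; exact hk1)
    apply tri_eq_zero hΔ
    have hyk : y - k = d * (z - m) := by
      rw [hk1]; push_cast; rw [hyz]; ring
    have hzm : z = m0 + Int.fract z := by rw [hfr]; ring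
    rw [hyk, abs_mul, abs_of_pos hd0]
    have h2 : 1 ≤ |z - m| := by
      rcases lt_or_ge m m0 with h | h
      · have : (m : ℝ) + 1 ≤ m0 := by exact_mod_cast h
        exact le_trans (by linarith) (le_abs_self _)
      · have h3 : m0 + 2 ≤ m := by omega
        have : (m0 : ℝ) + 2 ≤ m := by exact_mod_cast h3
        rw [abs_sub_comm]
        exact le_trans (by linarith) (le_abs_self _)
    nlinarith

/-- at most one triangle at each `y` -/
lemma tri_sum_le (Δ y : ℝ) (M : ℕ) (hΔ : 0 < Δ) (hΔ2 : Δ ≤ 1 / 2) (hy : 1 ≤ y) (hM : y + 1 ≤ M)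
    (R : Finset ℕ) (hR : R ⊆ range M) : ∑ n ∈ R, tri Δ y n ≤ 1 := by
  have h1 := tri_sum Δ y 1 0 M hΔ hΔ2 le_rfl hy hM
  have h2 : ∑ n ∈ R, tri Δ y n ≤ ∑ n ∈ (range M).filter (fun n => n ≡ 0 [MOD 1]), tri Δ y n := by
    apply sum_le_sum_of_subset_of_nonneg
    · intro n hn
      exact mem_filter.2 ⟨hR hn, Nat.modEq_one⟩
    · intro n _ _
      exact tri_nonneg _ _ _
  refine h2.trans ?_
  rw [h1]
  set f := Int.fract ((y - (0 : ℕ)) / (1 : ℕ)) with hf
  have hf0 : 0 ≤ f := Int.fract_nonneg _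
  have hf1 : f < 1 := Int.fract_lt_one _
  have e : Δ / ((1 : ℕ) : ℝ) = Δ := by simp
  rw [e]
  rcases le_or_gt Δ f with h | h
  · have h3 : 1 ≤ f / Δ := by rwa [one_le_div hΔ]
    rw [max_eq_left (by linarith : 1 - f / Δ ≤ 0), zero_add]
    have : 0 ≤ (1 - f) / Δ := div_nonneg (by linarith) hΔ.le
    exact max_le zero_le_one (by linarith)
  · have h3 : 1 ≤ (1 - f) / Δ := by rw [one_le_div hΔ]; linarith
    rw [max_eq_left (by linarith : 1 - (1 - f) / Δ ≤ 0), add_zero]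
    have : 0 ≤ f / Δ := div_nonneg hf0 hΔ.le
    exact max_le zero_le_one (by linarith)

/-- the weight of `n` -/
noncomputable def Wt (D : ℕ) (Δ b : ℝ) (n : ℕ) : ℝ :=
  ∑ q ∈ Ioc D (2 * D), vonMangoldt q * tri Δ (b / q) n

lemma Wt_nonneg (D : ℕ) (Δ b : ℝ) (n : ℕ) : 0 ≤ Wt D Δ b n :=
  sum_nonneg fun _ _ => mul_nonneg ArithmeticFunction.vonMangoldt_nonneg (tri_nonneg _ _ _)

/-- `ψ(2D) - ψ(D)` -/
noncomputable def Ps (D : ℕ) : ℝ := ∑ q ∈ Ioc D (2 * D), vonMangoldt q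

theorem class_sum (h2 : S_SN2) {η C : ℝ}
    (h1 : ∀ D : ℕ, 10 ^ 4 ≤ D → ∀ Y β : ℝ, (D : ℝ) ^ (3 / 2 : ℝ) ≤ Y → Y ≤ (D : ℝ) ^ 3 →
      |∑ q ∈ Ioc D (2 * D), vonMangoldt q * b2 (Y / q + β)| ≤ C * (D : ℝ) ^ (1 - η))
    (D : ℕ) (hD : 10 ^ 4 ≤ D) (Δ b : ℝ) (hΔ : 0 < Δ) (hΔ2 : Δ ≤ 1 / 2) (d r M : ℕ) (hd : 1 ≤ d)
    (hb : 2 * (D : ℝ) ≤ b) (hM : b + 1 ≤ M) (hY1 : (D : ℝ) ^ (3 / 2 : ℝ) ≤ b / d)
    (hY2 : b / d ≤ (D : ℝ) ^ 3) :
    |∑ n ∈ (range M).filter (fun n => n ≡ r [MOD d]), Wt D Δ b n - Δ / d * Ps D| ≤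
      2 * C * (D : ℝ) ^ (1 - η) * d / Δ := by
  have hd0 : (0 : ℝ) < d := by exact_mod_cast hd
  have hd1 : (1 : ℝ) ≤ d := by exact_mod_cast hd
  have hD0 : (0 : ℝ) < D := by
    have : 0 < D := by omega
    exact_mod_cast this
  have hΔd : 0 < Δ / d := by positivity
  have hΔd2 : Δ / d ≤ 1 / 2 := (div_le_self hΔ.le hd1).trans hΔ2
  have hb0 : 0 < b := by linarith
  unfold Wt
  rw [sum_comm]
  have e1 : ∀ q ∈ Ioc D (2 * D), ∑ n ∈ (range M).filter (fun n => n ≡ r [MOD d]),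
      vonMangoldt q * tri Δ (b / q) n =
      vonMangoldt q * (Δ / d) - (vonMangoldt q * b2 (b / d / q + (-(r : ℝ) / d + Δ / d)) -
        2 * (vonMangoldt q * b2 (b / d / q + (-(r : ℝ) / d))) +
        vonMangoldt q * b2 (b / d / q + (-(r : ℝ) / d - Δ / d))) / (2 * (Δ / d)) := by
    intro q hq
    rw [mem_Ioc] at hq
    have hq0 : (0 : ℝ) < q := by
      have : 0 < q := by omega
      exact_mod_cast this
    have hq2 : (q : ℝ) ≤ 2 * D := by exact_mod_cast hq.2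
    have hq1 : (1 : ℝ) ≤ q := by
      have : 1 ≤ q := by omega
      exact_mod_cast this
    rw [← mul_sum, tri_sum Δ (b / q) d r M hΔ hΔ2 hd (by rw [one_le_div hq0]; linarith) (by
      have : b / q ≤ b := div_le_self hb0.le hq1
      linarith), h2 (Δ / d) _ hΔd hΔd2]
    have z1 : (b / q - r) / d + Δ / d = b / d / q + (-(r : ℝ) / d + Δ / d) := by
      field_simp; ring
    have z2 : (b / q - r) / d = b / d / q + (-(r : ℝ) / d) := by
      field_simp; ring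
    have z3 : (b / q - r) / d - Δ / d = b / d / q + (-(r : ℝ) / d - Δ / d) := by
      field_simp; ring
    rw [z1, z3, z2]
    ring
  rw [sum_congr rfl e1, sum_sub_distrib, ← sum_div, sum_add_distrib, sum_sub_distrib, ← mul_sum,
    ← sum_mul]
  have a1 := h1 D hD (b / d) (-(r : ℝ) / d + Δ / d) hY1 hY2
  have a2 := h1 D hD (b / d) (-(r : ℝ) / d) hY1 hY2
  have a3 := h1 D hD (b / d) (-(r : ℝ) / d - Δ / d) hY1 hY2
  set s1 := ∑ q ∈ Ioc D (2 * D), vonMangoldt q * b2 (b / d / q + (-(r : ℝ) / d + Δ / d))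
  set s2 := ∑ q ∈ Ioc D (2 * D), vonMangoldt q * b2 (b / d / q + (-(r : ℝ) / d))
  set s3 := ∑ q ∈ Ioc D (2 * D), vonMangoldt q * b2 (b / d / q + (-(r : ℝ) / d - Δ / d))
  set E := C * (D : ℝ) ^ (1 - η) with hE
  have e2 : (∑ q ∈ Ioc D (2 * D), vonMangoldt q) * (Δ / d) - (s1 - 2 * s2 + s3) / (2 * (Δ / d)) -
      Δ / d * Ps D = -((s1 - 2 * s2 + s3) / (2 * (Δ / d))) := by
    unfold Ps; ring
  rw [e2, abs_neg, abs_div, abs_of_pos (by positivity : 0 < 2 * (Δ / d))]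
  have e3 : |s1 - 2 * s2 + s3| ≤ 4 * E := by
    rw [abs_le] at a1 a2 a3 ⊢
    constructor <;> linarith [a1.1, a1.2, a2.1, a2.2, a3.1, a3.2]
  calc |s1 - 2 * s2 + s3| / (2 * (Δ / d)) ≤ 4 * E / (2 * (Δ / d)) := by gcongr
    _ = 2 * C * (D : ℝ) ^ (1 - η) * d / Δ := by rw [hE]; field_simp; ring

end Pool.Agent.W150.MO
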