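import Mathlib
import Pool.Agent.W150.MO.Tri
import Pool.Agent.H20R2.EN.FLem
import Pool.Agent.H318R2.Cr.Prod

/-!
# The sieve for the cofactor (for S_SN3 of project MO)
-/

set_option autoImplicit false

namespace Pool.Agent.W150.MO

open Finset
open Pool.Agent.W164.MO (b2 S_SN1 S_SN2)
open ArithmeticFunction (vonMangoldt)
open Pool.Agent.H318R2.Cr (V Pz mem_Pz V_pos V_le_one one_sub_inv_pos)

/-- number of sets of primes with bounded product -/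
lemma card_sets (P : Finset ℕ) (hP : ∀ p ∈ P, p.Prime) (Y : ℕ) :
    (P.powerset.filter (fun T : Finset ℕ => ∏ p ∈ T, p ≤ Y)).card ≤ Y := by
  classical
  have h1 : Y = (Icc 1 Y).card := by simp
  conv_rhs => rw [h1]
  apply Finset.card_le_card_of_injOn (fun T => ∏ p ∈ T, p)
  · intro T hT
    rw [Finset.mem_coe, Finset.mem_filter, Finset.mem_powerset] at hT
    rw [Finset.mem_coe, Finset.mem_Icc]
    refine ⟨?_, hT.2⟩
    exact Finset.prod_pos fun p hp => (hP p (hT.1 hp)).pos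
  · intro T hT T' hT' h
    rw [Finset.mem_coe, Finset.mem_filter, Finset.mem_powerset] at hT hT'
    have h2 := Nat.primeFactors_prod (fun p hp => hP p (hT.1 hp))
    have h3 := Nat.primeFactors_prod (fun p hp => hP p (hT'.1 hp))
    rw [← h2, ← h3]
    simp only at h
    rw [h]

lemma Ps_nonneg (D : ℕ) : 0 ≤ Ps D := sum_nonneg fun _ _ => ArithmeticFunction.vonMangoldt_nonneg

open Classical in
theorem rough_mass (h2 : S_SN2) {η C : ℝ} (hC : 0 < C)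
    (h1 : ∀ D : ℕ, 10 ^ 4 ≤ D → ∀ Y β : ℝ, (D : ℝ) ^ (3 / 2 : ℝ) ≤ Y → Y ≤ (D : ℝ) ^ 3 →
      |∑ q ∈ Ioc D (2 * D), vonMangoldt q * b2 (Y / q + β)| ≤ C * (D : ℝ) ^ (1 - η)) :
    ∃ B K0 : ℕ, 1 ≤ B ∧ 1 ≤ K0 ∧ ∀ (J D M : ℕ) (Δ b : ℝ), 10 ^ 4 ≤ D → 0 < Δ → Δ ≤ 1 / 2 →
      2 * (D : ℝ) ≤ b → b + 1 ≤ M →
      (D : ℝ) ^ (3 / 2 : ℝ) * (K0 * ((2 : ℝ) ^ 2 ^ J) ^ B) ≤ b → b ≤ (D : ℝ) ^ 3 →
      1 / 2 * (Δ / K0 * Ps D) * V (2 ^ 2 ^ J) -
        ((J : ℝ) + 2) * (((2 : ℝ) ^ 2 ^ J) ^ B *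
          (2 * C * (D : ℝ) ^ (1 - η) * (K0 * ((2 : ℝ) ^ 2 ^ J) ^ B) / Δ)) ≤
      ∑ n ∈ (range M).filter (fun n => ∀ p : ℕ, p.Prime → p ∣ n → 2 ^ 2 ^ J < p), Wt D Δ b n := by
  obtain ⟨C0, hC0, hFL⟩ := Pool.Agent.H20R2.fLem 1
  set K0 : ℕ := ∏ p ∈ (Icc 1 C0).filter Nat.Prime, p with hK0
  have hK01 : 1 ≤ K0 := Nat.pos_of_ne_zero (prod_ne_zero_iff.2 fun p hp => (mem_filter.1 hp).2.ne_zero)
  refine ⟨C0 * C0, K0, Nat.mul_pos hC0 hC0, hK01, ?_⟩
  intro J D M Δ b hD hΔ hΔ2 hb hM hY1 hY2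
  have hK0r : (1 : ℝ) ≤ K0 := by exact_mod_cast hK01
  have hK0p : (0 : ℝ) < K0 := by linarith
  have hD0 : (0 : ℝ) < D := by
    have : 0 < D := by omega
    exact_mod_cast this
  have hb0 : 0 < b := by linarith
  set Z : ℕ := 2 ^ 2 ^ J with hZ
  have hZr : ((Z : ℕ) : ℝ) = (2 : ℝ) ^ 2 ^ J := by rw [hZ]; push_cast; rfl
  set B := C0 * C0 with hB
  have hZ1 : 1 ≤ Z := Nat.one_le_two_pow
  have hZB1 : (1 : ℝ) ≤ ((2 : ℝ) ^ 2 ^ J) ^ B := one_le_pow₀ (one_le_pow₀ (by norm_num))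
  set P : Finset ℕ := (Ioc C0 Z).filter Nat.Prime with hP
  have hPp : ∀ p ∈ P, p.Prime ∧ C0 < p ∧ p ≤ Z := by
    intro p hp
    rw [hP, mem_filter, mem_Ioc] at hp
    exact ⟨hp.2, hp.1.1, hp.1.2⟩
  set E : ℝ := 2 * C * (D : ℝ) ^ (1 - η) * (K0 * ((2 : ℝ) ^ 2 ^ J) ^ B) / Δ with hE
  have hDη : 0 < (D : ℝ) ^ (1 - η) := Real.rpow_pos_of_pos hD0 _
  have hE0 : 0 ≤ E := by positivity
  have hA0 : 0 ≤ Δ / K0 * Ps D := mul_nonneg (by positivity) (Ps_nonneg D)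
  have key := hFL C0 J C0 P (fun p => 1 / (p : ℝ)) le_rfl le_rfl hPp (fun p hp => by
      have hp0 : (0 : ℝ) < p := by exact_mod_cast (hPp p hp).1.pos
      have hp1 : (1 : ℝ) < p := by exact_mod_cast (hPp p hp).1.one_lt
      refine ⟨by positivity, ?_⟩
      push_cast
      apply one_div_le_one_div_of_le (by linarith) (by linarith))
    ((range M).filter (fun n => n ≡ 1 [MOD K0])) (Wt D Δ b) (fun p n => p ∣ n) (Δ / K0 * Ps D)
    (fun _ => E) (fun n _ => Wt_nonneg D Δ b n) hA0 (by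
      intro T hT hTD
      set e : ℕ := ∏ p ∈ T, p with he
      have hTp : ∀ p ∈ T, p.Prime := fun p hp => (hPp p (hT hp)).1
      have he1 : 1 ≤ e := Nat.pos_of_ne_zero (prod_ne_zero_iff.2 fun p hp => (hTp p hp).ne_zero)
      have hcop : Nat.Coprime K0 e := by
        rw [hK0, he]
        apply Nat.Coprime.prod_left
        intro p hp
        apply Nat.Coprime.prod_right
        intro q hq
        have hpp := (mem_filter.1 hp).2
        refine (Nat.coprime_primes hpp (hTp q hq)).2 ?_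
        have h3 := (mem_Icc.1 (mem_filter.1 hp).1).2
        have h4 := (hPp q (hT hq)).2.1
        omega
      obtain ⟨r, hr1, hr2⟩ := Nat.chineseRemainder hcop 1 0
      have hset : ((range M).filter (fun n => n ≡ 1 [MOD K0])).filter (fun m => ∀ p ∈ T, p ∣ m) =
          (range M).filter (fun n => n ≡ r [MOD K0 * e]) := by
        rw [filter_filter]
        apply filter_congr
        intro n _
        rw [← Nat.modEq_and_modEq_iff_modEq_mul hcop]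
        constructor
        · rintro ⟨h3, h4⟩
          refine ⟨h3.trans hr1.symm, ?_⟩
          have h5 : e ∣ n := by
            rw [he]
            exact Finset.prod_primes_dvd n (fun p hp => (hTp p hp).prime) h4
          exact ((Nat.modEq_zero_iff_dvd).2 h5).trans hr2.symm
        · rintro ⟨h3, h4⟩
          refine ⟨h3.trans hr1, fun p hp => ?_⟩
          have h5 : e ∣ n := (Nat.modEq_zero_iff_dvd).1 (h4.trans hr2)
          exact (dvd_prod_of_mem _ hp).trans h5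
      have heB : (e : ℝ) ≤ ((2 : ℝ) ^ 2 ^ J) ^ B := by
        have : (e : ℝ) ≤ (((2 ^ 2 ^ J) ^ (C0 * C0) : ℕ) : ℝ) := by exact_mod_cast hTD
        refine this.trans (le_of_eq ?_)
        push_cast
        rfl
      have hd : 1 ≤ K0 * e := Nat.mul_pos hK01 he1
      have hdr : ((K0 * e : ℕ) : ℝ) ≤ K0 * ((2 : ℝ) ^ 2 ^ J) ^ B := by
        push_cast
        exact mul_le_mul_of_nonneg_left heB hK0p.le
      have hd0 : (0 : ℝ) < ((K0 * e : ℕ) : ℝ) := by exact_mod_cast hd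
      have hd1 : (1 : ℝ) ≤ ((K0 * e : ℕ) : ℝ) := by exact_mod_cast hd
      have h3 := class_sum h2 h1 D hD Δ b hΔ hΔ2 (K0 * e) r M hd hb hM (by
        rw [le_div_iff₀ hd0]
        refine le_trans ?_ hY1
        exact mul_le_mul_of_nonneg_left hdr (by positivity)) (by
        exact (div_le_self hb0.le hd1).trans hY2)
      have e1 : ∑ m ∈ ((range M).filter (fun n => n ≡ 1 [MOD K0])).filter (fun m => ∀ p ∈ T, p ∣ m), Wt D Δ b m =
          ∑ n ∈ (range M).filter (fun n => n ≡ r [MOD K0 * e]), Wt D Δ b n := by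
        rw [← hset]
      have e2 : Δ / K0 * Ps D * ∏ p ∈ T, 1 / (p : ℝ) = Δ / ((K0 * e : ℕ) : ℝ) * Ps D := by
        rw [prod_div_distrib, prod_const_one, he]
        push_cast
        have : (∏ p ∈ T, (p : ℝ)) ≠ 0 := prod_ne_zero_iff.2 fun p hp => by
          exact_mod_cast (hTp p hp).ne_zero
        field_simp
      have e3 : 2 * C * (D : ℝ) ^ (1 - η) * ((K0 * e : ℕ) : ℝ) / Δ ≤ E := by
        rw [hE]
        gcongr
      refine le_trans (le_of_eq ?_) (h3.trans e3)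
      rw [e2, ← e1]
      congr 2
      apply sum_congr _ (fun _ _ => rfl)
      ext m
      simp only [mem_filter])
  have hV1 : V Z ≤ ∏ p ∈ P, (1 - 1 / (p : ℝ)) := by
    have hsub : P ⊆ Pz Z := by
      intro p hp
      exact mem_Pz.2 ⟨(hPp p hp).1, (hPp p hp).2.2⟩
    unfold V
    rw [← prod_sdiff hsub]
    have h3 : ∏ p ∈ Pz Z \ P, (1 - 1 / (p : ℝ)) ≤ 1 := by
      apply prod_le_one
      · intro p hp
        exact (one_sub_inv_pos (mem_Pz.1 (mem_sdiff.1 hp).1).1).le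
      · intro p _
        have : (0 : ℝ) ≤ 1 / p := by positivity
        linarith
    have h4 : 0 ≤ ∏ p ∈ P, (1 - 1 / (p : ℝ)) :=
      prod_nonneg fun p hp => (one_sub_inv_pos (hPp p hp).1).le
    nlinarith
  set V1 : ℝ := ∏ p ∈ P, (1 - 1 / (p : ℝ)) with hV1d
  have hV1p : 0 ≤ V1 := (V_pos Z).le.trans hV1
  have hcard : ∑ T ∈ P.powerset.filter (fun T : Finset ℕ => ∏ p ∈ T, p ≤ (2 ^ 2 ^ J) ^ (C0 * C0)), E ≤
      ((2 : ℝ) ^ 2 ^ J) ^ B * E := by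
    rw [sum_const, nsmul_eq_mul]
    apply mul_le_mul_of_nonneg_right _ hE0
    have h3 := card_sets P (fun p hp => (hPp p hp).1) ((2 ^ 2 ^ J) ^ (C0 * C0))
    have h4 : (((P.powerset.filter (fun T : Finset ℕ => ∏ p ∈ T, p ≤ (2 ^ 2 ^ J) ^ (C0 * C0))).card : ℕ) : ℝ) ≤
        (((2 ^ 2 ^ J) ^ (C0 * C0) : ℕ) : ℝ) := by exact_mod_cast h3
    refine h4.trans (le_of_eq ?_)
    push_cast
    rfl
  have hhalf : (1 / 2 : ℝ) ^ C0 ≤ 1 / 2 := by
    calc (1 / 2 : ℝ) ^ C0 ≤ (1 / 2 : ℝ) ^ 1 := pow_le_pow_of_le_one (by norm_num) (by norm_num) hC0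
      _ = 1 / 2 := pow_one _
  have hJ : (0 : ℝ) ≤ (J : ℝ) + 2 := by positivity
  have key1 := (abs_le.1 key).1
  have hAV : 0 ≤ Δ / K0 * Ps D * V1 := mul_nonneg hA0 hV1p
  have hlow : 1 / 2 * (Δ / K0 * Ps D) * V Z - ((J : ℝ) + 2) * (((2 : ℝ) ^ 2 ^ J) ^ B * E) ≤
      ∑ m ∈ ((range M).filter (fun n => n ≡ 1 [MOD K0])).filter (fun m => ∀ p ∈ P, ¬ p ∣ m), Wt D Δ b m := by
    have h5 : ((J : ℝ) + 2) * ∑ T ∈ P.powerset.filter (fun T : Finset ℕ => ∏ p ∈ T, p ≤ (2 ^ 2 ^ J) ^ (C0 * C0)), E ≤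
        ((J : ℝ) + 2) * (((2 : ℝ) ^ 2 ^ J) ^ B * E) := mul_le_mul_of_nonneg_left hcard hJ
    have h6 : (1 / 2 : ℝ) ^ C0 * (Δ / K0 * Ps D * V1) ≤ 1 / 2 * (Δ / K0 * Ps D * V1) :=
      mul_le_mul_of_nonneg_right hhalf hAV
    have h7 : Δ / K0 * Ps D * V Z ≤ Δ / K0 * Ps D * V1 := mul_le_mul_of_nonneg_left hV1 hA0
    have key2 : -((1 / 2 : ℝ) ^ C0 * (Δ / K0 * Ps D * V1) + ((J : ℝ) + 2) *
        ∑ T ∈ P.powerset.filter (fun T : Finset ℕ => ∏ p ∈ T, p ≤ (2 ^ 2 ^ J) ^ (C0 * C0)), E) ≤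
        ∑ m ∈ ((range M).filter (fun n => n ≡ 1 [MOD K0])).filter (fun m => ∀ p ∈ P, ¬ p ∣ m), Wt D Δ b m -
          Δ / K0 * Ps D * V1 := by
      refine key1.trans (le_of_eq ?_)
      congr 1
      apply sum_congr _ (fun _ _ => rfl)
      ext m
      simp only [mem_filter]
    linarith
  refine hlow.trans ?_
  apply sum_le_sum_of_subset_of_nonneg
  · intro n hn
    rw [mem_filter, mem_filter] at hn
    rw [mem_filter]
    refine ⟨hn.1.1, fun p hp hpn => ?_⟩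
    by_contra hc
    have hpZ : p ≤ Z := not_lt.1 hc
    by_cases hpC : C0 < p
    · exact hn.2 p (by rw [hP, mem_filter, mem_Ioc]; exact ⟨⟨hpC, hpZ⟩, hp⟩) hpn
    · have hpK : p ∣ K0 := by
        rw [hK0]
        apply dvd_prod_of_mem
        rw [mem_filter, mem_Icc]
        exact ⟨⟨hp.pos, by omega⟩, hp⟩
      have h5 : n ≡ 1 [MOD p] := hn.1.2.of_dvd hpK
      have h6 : p ∣ 1 := (h5.dvd_iff (dvd_refl p)).1 hpn
      exact hp.one_lt.ne' (Nat.dvd_one.1 h6)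
  · intro n _ _
    exact Wt_nonneg D Δ b n

end Pool.Agent.W150.MO
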