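import Mathlib
import Pool.Agent.W150.MO.Siv
import Pool.Agent.Helper923.PNT

/-!
# S_SN3 of project MO: candidates in short intervals
-/

set_option autoImplicit false

namespace Pool.Agent.W150.MO

open Finset
open Pool.Agent.W164.MO (b2 S_SN1 S_SN2 S_SN3 S_SN Rough Cand)
open ArithmeticFunction (vonMangoldt)
open Pool.Agent.H318R2.Cr (V Pz mem_Pz V_pos V_le_one cz_bounds)

open Classical in
/-- candidates with large prime in `(D, 2 D]` -/
noncomputable def SS (z : ℝ) (D x L : ℕ) : Finset ℕ := (Ico x (x + L)).filter (fun N =>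
  ∃ q n : ℕ, q.Prime ∧ N = n * q ∧ D < q ∧ q ≤ 2 * D ∧ Rough z n)

lemma uniq_prime {D N q q' n n' : ℕ} (hN0 : 0 < N) (hN : N < D * D) (hq : q.Prime) (hq' : q'.Prime)
    (h : N = n * q) (h' : N = n' * q') (hD : D < q) (hD' : D < q') : q = q' := by
  by_contra hne
  have hc : Nat.Coprime q q' := (Nat.coprime_primes hq hq').2 hne
  have hd : q * q' ∣ N := hc.mul_dvd_of_dvd_of_dvd ⟨n, by rw [h]; ring⟩ ⟨n', by rw [h']; ring⟩
  have h1 := Nat.le_of_dvd hN0 hd
  have h2 : D * D ≤ q * q' := Nat.mul_le_mul hD.le hD'.le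
  omega

lemma nonprime_sum (D : ℕ) :
    ∑ q ∈ (Ioc D (2 * D)).filter (fun q => ¬ q.Prime), vonMangoldt q ≤
      Chebyshev.psi (2 * D : ℕ) - Chebyshev.theta (2 * D : ℕ) := by
  have h1 : Chebyshev.psi ((2 * D : ℕ) : ℝ) = ∑ n ∈ Ioc 0 (2 * D), vonMangoldt n := by
    unfold Chebyshev.psi
    rw [Nat.floor_natCast]
  have h2 : Chebyshev.theta ((2 * D : ℕ) : ℝ) = ∑ n ∈ (Ioc 0 (2 * D)).filter Nat.Prime, vonMangoldt n := by
    unfold Chebyshev.theta
    rw [Nat.floor_natCast]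
    apply sum_congr rfl
    intro p hp
    rw [ArithmeticFunction.vonMangoldt_apply_prime (mem_filter.1 hp).2]
  rw [h1, h2, ← sum_filter_add_sum_filter_not (Ioc 0 (2 * D)) Nat.Prime, add_sub_cancel_left]
  apply sum_le_sum_of_subset_of_nonneg
  · intro q hq
    rw [mem_filter, mem_Ioc] at hq ⊢
    exact ⟨⟨by omega, hq.1.2⟩, hq.2⟩
  · intro _ _ _
    exact ArithmeticFunction.vonMangoldt_nonneg

open Classical in
theorem block_upper (z : ℝ) (D x L M : ℕ) (hD : 1 ≤ D) (hx : 1 ≤ x) (hL : 1 ≤ L) (hLD : L ≤ D)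
    (hxD : x + L ≤ D * D) (h2D : 2 * D ≤ x) (hM : x + L + 1 ≤ M) (R : Finset ℕ) (hR : R ⊆ range M)
    (hRz : ∀ n ∈ R, Rough z n) :
    ∑ n ∈ R, Wt D ((L : ℝ) / (4 * D)) (x + (L : ℝ) / 2) n ≤
      Real.log (2 * D) * (SS z D x L).card +
        (Chebyshev.psi (2 * D : ℕ) - Chebyshev.theta (2 * D : ℕ)) := by
  set Δ : ℝ := (L : ℝ) / (4 * D) with hΔ
  set b : ℝ := x + (L : ℝ) / 2 with hb
  have hD0 : (0 : ℝ) < D := by exact_mod_cast hD
  have hD1 : (1 : ℝ) ≤ D := by exact_mod_cast hD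
  have hL0 : (0 : ℝ) < L := by exact_mod_cast hL
  have hLDr : (L : ℝ) ≤ D := by exact_mod_cast hLD
  have hΔ0 : 0 < Δ := by positivity
  have hΔ2 : Δ ≤ 1 / 2 := by
    rw [hΔ, div_le_iff₀ (by positivity)]
    linarith
  have hxr : 2 * (D : ℝ) ≤ x := by exact_mod_cast h2D
  have hb2 : 2 * (D : ℝ) ≤ b := by rw [hb]; linarith
  have hb0 : 0 < b := by linarith
  have hbM : b + 1 ≤ M := by
    have : ((x + L + 1 : ℕ) : ℝ) ≤ M := by exact_mod_cast hM
    push_cast at this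
    rw [hb]; linarith
  have hlog : 0 ≤ Real.log (2 * D) := Real.log_nonneg (by linarith)
  unfold Wt
  rw [sum_comm, ← sum_filter_add_sum_filter_not (Ioc D (2 * D)) Nat.Prime]
  apply add_le_add
  · -- primes
    have h1 : ∀ q ∈ (Ioc D (2 * D)).filter Nat.Prime, ∑ n ∈ R, vonMangoldt q * tri Δ (b / q) n ≤
        ∑ n ∈ R, if 0 < tri Δ (b / q) n then Real.log (2 * D) else 0 := by
      intro q hq
      rw [mem_filter, mem_Ioc] at hq
      apply sum_le_sum
      intro n _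
      have hq2 : (q : ℝ) ≤ 2 * D := by exact_mod_cast hq.1.2
      have hq0 : (0 : ℝ) < q := by exact_mod_cast hq.2.pos
      have hΛ : vonMangoldt q ≤ Real.log (2 * D) := by
        rw [ArithmeticFunction.vonMangoldt_apply_prime hq.2]
        exact Real.log_le_log hq0 hq2
      split_ifs with ht
      · calc vonMangoldt q * tri Δ (b / q) n ≤ Real.log (2 * D) * 1 :=
              mul_le_mul hΛ (tri_le_one hΔ0 _ _) (tri_nonneg _ _ _) hlog
          _ = Real.log (2 * D) := mul_one _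
      · have : tri Δ (b / q) n = 0 := le_antisymm (not_lt.1 ht) (tri_nonneg _ _ _)
        rw [this, mul_zero]
    refine (sum_le_sum h1).trans ?_
    rw [← sum_product', ← sum_filter, sum_const, nsmul_eq_mul, mul_comm]
    apply mul_le_mul_of_nonneg_left _ hlog
    have h2 : (((Ioc D (2 * D)).filter Nat.Prime ×ˢ R).filter (fun a => 0 < tri Δ (b / a.1) a.2)).card ≤
        (SS z D x L).card := by
      have hmem : ∀ a ∈ ((Ioc D (2 * D)).filter Nat.Prime ×ˢ R).filter (fun a => 0 < tri Δ (b / a.1) a.2),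
          a.1.Prime ∧ D < a.1 ∧ a.1 ≤ 2 * D ∧ Rough z a.2 ∧ x ≤ a.2 * a.1 ∧ a.2 * a.1 < x + L := by
        intro a ha
        rw [mem_filter, mem_product, mem_filter, mem_Ioc] at ha
        obtain ⟨⟨⟨⟨hD1', hD2'⟩, hp⟩, hR'⟩, ht⟩ := ha
        have h3 := lt_of_tri_pos hΔ0 ht
        have hq0 : (0 : ℝ) < a.1 := by exact_mod_cast hp.pos
        have hq2 : (a.1 : ℝ) ≤ 2 * D := by exact_mod_cast hD2'
        have h4 : |b - a.2 * a.1| < (L : ℝ) / 2 := by
          have e : b - (a.2 : ℝ) * a.1 = (b / a.1 - a.2) * a.1 := by field_simp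
          rw [e, abs_mul, abs_of_pos hq0]
          calc |b / a.1 - a.2| * a.1 < Δ * a.1 := mul_lt_mul_of_pos_right h3 hq0
            _ ≤ Δ * (2 * D) := mul_le_mul_of_nonneg_left hq2 hΔ0.le
            _ = (L : ℝ) / 2 := by rw [hΔ]; field_simp; ring
        rw [abs_lt, hb] at h4
        refine ⟨hp, hD1', hD2', hRz _ hR', ?_, ?_⟩
        · have : (x : ℝ) < ((a.2 * a.1 : ℕ) : ℝ) := by push_cast; linarith [h4.2]
          have := Nat.cast_lt.1 this
          exact this.le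
        · have : ((a.2 * a.1 : ℕ) : ℝ) < ((x + L : ℕ) : ℝ) := by push_cast; linarith [h4.1]
          exact Nat.cast_lt.1 this
      apply card_le_card_of_injOn (fun a => a.2 * a.1)
      · intro a ha
        obtain ⟨h3, h4, h5, h6, h7, h8⟩ := hmem a (mem_coe.1 ha)
        rw [mem_coe, SS, mem_filter, mem_Ico]
        exact ⟨⟨h7, h8⟩, a.1, a.2, h3, rfl, h4, h5, h6⟩
      · intro a ha a' ha' heq
        obtain ⟨h3, h4, h5, h6, h7, h8⟩ := hmem a (mem_coe.1 ha)
        obtain ⟨h3', h4', h5', h6', h7', h8'⟩ := hmem a' (mem_coe.1 ha')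
        simp only at heq
        have hq : a.1 = a'.1 := uniq_prime (N := a.2 * a.1) (n := a.2) (n' := a'.2) (by omega) (by omega) h3 h3' rfl heq h4 h4'
        have hn : a.2 = a'.2 := by
          rw [hq] at heq
          exact Nat.eq_of_mul_eq_mul_right h3'.pos heq
        exact Prod.ext hq hn
    exact_mod_cast h2
  · -- prime powers
    refine le_trans ?_ (nonprime_sum D)
    apply sum_le_sum
    intro q hq
    rw [mem_filter, mem_Ioc] at hq
    rw [← mul_sum]
    have hq0 : (0 : ℝ) < q := by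
      have : 0 < q := by omega
      exact_mod_cast this
    have hq1 : (1 : ℝ) ≤ q := by
      have : 1 ≤ q := by omega
      exact_mod_cast this
    have hq2 : (q : ℝ) ≤ 2 * D := by exact_mod_cast hq.1.2
    have h3 : ∑ n ∈ R, tri Δ (b / q) n ≤ 1 := by
      apply tri_sum_le Δ (b / q) M hΔ0 hΔ2 _ _ R hR
      · rw [one_le_div hq0]; linarith
      · have : b / q ≤ b := div_le_self hb0.le hq1
        linarith
    calc vonMangoldt q * ∑ n ∈ R, tri Δ (b / q) n ≤ vonMangoldt q * 1 :=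
          mul_le_mul_of_nonneg_left h3 ArithmeticFunction.vonMangoldt_nonneg
      _ = vonMangoldt q := mul_one _

lemma psi_dyadic : ∃ D0 : ℕ, ∀ D : ℕ, D0 ≤ D → (D : ℝ) / 2 ≤ Ps D := by
  have h := Helper923.PNT.psi_div_tendsto
  have h1 : ∀ᶠ y : ℝ in Filter.atTop, |Chebyshev.psi y / y - 1| < 1 / 8 := by
    have := (Metric.tendsto_nhds.1 h) (1 / 8) (by norm_num)
    simpa [Real.dist_eq] using this
  obtain ⟨y0, hy0⟩ := Filter.eventually_atTop.1 h1
  refine ⟨max 1 ⌈y0⌉₊, fun D hD => ?_⟩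
  have hD1 : 1 ≤ D := (le_max_left _ _).trans hD
  have hDy : y0 ≤ D := (Nat.le_ceil y0).trans (by exact_mod_cast (le_max_right _ _).trans hD)
  have hD0 : (0 : ℝ) < D := by exact_mod_cast hD1
  have a1 := hy0 D hDy
  have a2 := hy0 (2 * D) (by linarith)
  rw [abs_lt] at a1 a2
  have b1 : Chebyshev.psi D ≤ 9 / 8 * D := by
    have := a1.2
    rw [sub_lt_iff_lt_add, div_lt_iff₀ hD0] at this
    linarith
  have b2' : 7 / 8 * (2 * (D : ℝ)) ≤ Chebyshev.psi (2 * D) := by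
    have := a2.1
    rw [lt_sub_iff_add_lt, lt_div_iff₀ (by positivity)] at this
    linarith
  have e1 : Chebyshev.psi (D : ℝ) = ∑ n ∈ Ioc 0 D, vonMangoldt n := by
    unfold Chebyshev.psi
    rw [Nat.floor_natCast]
  have e2 : Chebyshev.psi (2 * (D : ℝ)) = ∑ n ∈ Ioc 0 (2 * D), vonMangoldt n := by
    unfold Chebyshev.psi
    rw [show (2 * (D : ℝ)) = ((2 * D : ℕ) : ℝ) by push_cast; ring, Nat.floor_natCast]
  have e3 : ∑ n ∈ Ioc 0 (2 * D), vonMangoldt n = ∑ n ∈ Ioc 0 D, vonMangoldt n + Ps D := by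
    unfold Ps
    rw [← sum_union]
    · congr 1
      ext n
      simp only [mem_union, mem_Ioc]
      omega
    · rw [disjoint_left]
      intro n h1 h2
      rw [mem_Ioc] at h1 h2
      omega
  rw [e2, e3, ← e1] at b2'
  linarith

/-- polynomial against exponential -/
lemma poly_exp (A s : ℝ) (hs : 0 < s) : ∃ K : ℕ, ∀ k : ℕ, K ≤ k → A * (k : ℝ) ^ 2 ≤ (2 : ℝ) ^ (s * k) := by
  have hr : |(2 : ℝ) ^ (-s)| < 1 := by
    rw [abs_of_pos (Real.rpow_pos_of_pos (by norm_num) _)]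
    exact Real.rpow_lt_one_of_one_lt_of_neg (by norm_num) (by linarith)
  have h := tendsto_pow_const_mul_const_pow_of_abs_lt_one 2 hr
  have h1 : ∀ᶠ k : ℕ in Filter.atTop, (k : ℝ) ^ 2 * ((2 : ℝ) ^ (-s)) ^ k < 1 / (|A| + 1) :=
    h.eventually_lt_const (by positivity)
  obtain ⟨K, hK⟩ := Filter.eventually_atTop.1 h1
  refine ⟨K, fun k hk => ?_⟩
  have h2 := hK k hk
  have e : ((2 : ℝ) ^ (-s)) ^ k = ((2 : ℝ) ^ (s * k))⁻¹ := by
    rw [← Real.rpow_natCast, ← Real.rpow_mul (by norm_num), ← Real.rpow_neg (by norm_num)]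
    congr 1
    ring
  rw [e] at h2
  have hp : 0 < (2 : ℝ) ^ (s * k) := Real.rpow_pos_of_pos (by norm_num) _
  rw [← div_eq_mul_inv, div_lt_div_iff₀ hp (by positivity), one_mul] at h2
  have hA : A * (k : ℝ) ^ 2 ≤ (|A| + 1) * (k : ℝ) ^ 2 := by
    apply mul_le_mul_of_nonneg_right _ (by positivity)
    linarith [le_abs_self A]
  linarith

end Pool.Agent.W150.MO
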