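import Mathlib
import Pool.Agent.W150.MO.SN3

/-!
# S_SN3 of project MO: one dyadic block of primes
-/

set_option autoImplicit false

namespace Pool.Agent.W150.MO

open Finset
open Pool.Agent.W164.MO (b2 S_SN1 S_SN2 S_SN3 S_SN Rough Cand)
open ArithmeticFunction (vonMangoldt)
open Pool.Agent.H318R2.Cr (V Pz mem_Pz V_pos V_le_one cz_bounds)

lemma pow2_le {a b : ℝ} (h : a ≤ b) : (2 : ℝ) ^ a ≤ (2 : ℝ) ^ b :=
  Real.rpow_le_rpow_of_exponent_le (by norm_num) h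

/-- the error of the sieve is small -/
lemma err_bound {η C cM K0 c ν k J ZB D L : ℝ} (hη0 : 0 < η) (hη1 : η < 1) (hC : 0 < C) (hcM : 0 < cM)
    (hK0 : 0 < K0) (hc : 0 < c) (hcη : c ≤ η / 10) (hν : 0 < ν) (hν1 : ν ≤ 1) (hk : 100 ≤ k)
    (hJ0 : 0 ≤ J) (hJ : J + 2 ≤ 2 * k) (hZB0 : 0 < ZB) (hZB : ZB ≤ (2 : ℝ) ^ (η / 20 * k))
    (hD0 : 0 < D) (hDup : 2 * D ≤ (2 : ℝ) ^ ((1 / 2 + c) * k)) (hL0 : 0 < L)
    (hL1 : (2 : ℝ) ^ ((1 / 2 - c / 100) * k) ≤ L)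
    (hpoly : 1024 * C * K0 ^ 2 / cM * k ^ 2 ≤ (2 : ℝ) ^ (η / 10 * k)) :
    (J + 2) * (ZB * (2 * C * D ^ (1 - η) * (K0 * ZB) / (L / (4 * D)))) ≤
      L * cM / (32 * K0 * ν * k) / 2 := by
  have hk0 : 0 < k := by linarith
  have e1 : ZB * ZB ≤ (2 : ℝ) ^ (η / 10 * k) := by
    calc ZB * ZB ≤ (2 : ℝ) ^ (η / 20 * k) * (2 : ℝ) ^ (η / 20 * k) :=
          mul_le_mul hZB hZB hZB0.le (by positivity)
      _ = (2 : ℝ) ^ (η / 10 * k) := by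
          rw [← Real.rpow_add (by norm_num)]; congr 1; ring
  have e2 : D ^ (1 - η) * D ≤ (2 : ℝ) ^ ((1 - 3 * η / 10) * k) := by
    have h3 : D ^ (1 - η) * D = D ^ (2 - η) := by
      rw [show (2 - η) = (1 - η) + 1 by ring, Real.rpow_add hD0, Real.rpow_one]
    rw [h3]
    calc D ^ (2 - η) ≤ ((2 : ℝ) ^ ((1 / 2 + c) * k)) ^ (2 - η) := by
          apply Real.rpow_le_rpow hD0.le (by linarith) (by linarith)
      _ = (2 : ℝ) ^ ((1 / 2 + c) * k * (2 - η)) := by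
          rw [← Real.rpow_mul (by norm_num)]
      _ ≤ (2 : ℝ) ^ ((1 - 3 * η / 10) * k) := by
          apply pow2_le
          have h4 : (1 / 2 + c) * (2 - η) ≤ 1 - 3 * η / 10 := by
            have : 0 < c * η := mul_pos hc hη0
            linarith
          calc (1 / 2 + c) * k * (2 - η) = (1 / 2 + c) * (2 - η) * k := by ring
            _ ≤ (1 - 3 * η / 10) * k := mul_le_mul_of_nonneg_right h4 hk0.le
  have e3 : (2 : ℝ) ^ ((1 - η / 10) * k) ≤ L ^ 2 := by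
    calc (2 : ℝ) ^ ((1 - η / 10) * k) ≤
        (2 : ℝ) ^ ((1 / 2 - c / 100) * k + (1 / 2 - c / 100) * k) := by
          apply pow2_le
          have h4 : 1 - η / 10 ≤ (1 / 2 - c / 100) + (1 / 2 - c / 100) := by linarith
          calc (1 - η / 10) * k ≤ ((1 / 2 - c / 100) + (1 / 2 - c / 100)) * k :=
                mul_le_mul_of_nonneg_right h4 hk0.le
            _ = _ := by ring
      _ = (2 : ℝ) ^ ((1 / 2 - c / 100) * k) * (2 : ℝ) ^ ((1 / 2 - c / 100) * k) :=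
          Real.rpow_add (by norm_num) _ _
      _ ≤ L * L := mul_le_mul hL1 hL1 (by positivity) hL0.le
      _ = L ^ 2 := by ring
  have e4 : 1024 * C * K0 ^ 2 * k ^ 2 ≤ cM * (2 : ℝ) ^ (η / 10 * k) := by
    calc 1024 * C * K0 ^ 2 * k ^ 2 = cM * (1024 * C * K0 ^ 2 / cM * k ^ 2) := by
          field_simp
      _ ≤ _ := mul_le_mul_of_nonneg_left hpoly hcM.le
  have e5 : (J + 2) * (ZB * (2 * C * D ^ (1 - η) * (K0 * ZB) / (L / (4 * D)))) =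
      8 * C * K0 * (J + 2) * (ZB * ZB) * (D ^ (1 - η) * D) / L := by
    field_simp
    ring
  rw [e5, div_div, div_le_div_iff₀ hL0 (by positivity)]
  calc 8 * C * K0 * (J + 2) * (ZB * ZB) * (D ^ (1 - η) * D) * (32 * K0 * ν * k * 2)
      ≤ 8 * C * K0 * (2 * k) * (2 : ℝ) ^ (η / 10 * k) * (2 : ℝ) ^ ((1 - 3 * η / 10) * k) *
          (32 * K0 * 1 * k * 2) := by
        gcongr
    _ = (1024 * C * K0 ^ 2 * k ^ 2) * ((2 : ℝ) ^ (η / 10 * k) *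
          (2 : ℝ) ^ ((1 - 3 * η / 10) * k)) := by ring
    _ ≤ (cM * (2 : ℝ) ^ (η / 10 * k)) * ((2 : ℝ) ^ (η / 10 * k) *
          (2 : ℝ) ^ ((1 - 3 * η / 10) * k)) := by
        apply mul_le_mul_of_nonneg_right e4 (by positivity)
    _ = cM * (2 : ℝ) ^ ((1 - η / 10) * k) := by
        rw [← Real.rpow_add (by norm_num), mul_assoc, ← Real.rpow_add (by norm_num)]
        congr 2
        ring
    _ ≤ cM * L ^ 2 := mul_le_mul_of_nonneg_left e3 hcM.le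
    _ = L * cM * L := by ring

/-- prime powers are negligible -/
lemma pp_bound {η cM K0 c ν k L : ℝ} {D : ℕ} (hη0 : 0 < η) (hη1 : η < 1) (hcM : 0 < cM)
    (hK0 : 0 < K0) (hc : 0 < c) (hc10 : c ≤ 1 / 10) (hν : 0 < ν) (hν1 : ν ≤ 1)
    (hk : 100 ≤ k) (hD1 : 1 ≤ D) (hDup : 2 * (D : ℝ) ≤ (2 : ℝ) ^ ((1 / 2 + c) * k)) (hL0 : 0 < L)
    (hlogk : Real.log (2 * D) ≤ k)
    (hL1 : (2 : ℝ) ^ ((1 / 2 - c / 100) * k) ≤ L)
    (hpoly : 256 * K0 / cM * k ^ 2 ≤ (2 : ℝ) ^ (η / 10 * k)) :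
    Chebyshev.psi (2 * D : ℕ) - Chebyshev.theta (2 * D : ℕ) ≤ L * cM / (32 * K0 * ν * k) / 4 := by
  have hk0 : 0 < k := by linarith
  have h2D1 : 1 ≤ 2 * D := by omega
  have h2D1r : (1 : ℝ) ≤ ((2 * D : ℕ) : ℝ) := by exact_mod_cast h2D1
  have h3 := Chebyshev.abs_psi_sub_theta_le_sqrt_mul_log h2D1r
  have h4 := (le_abs_self _).trans h3
  refine h4.trans ?_
  push_cast at h2D1r ⊢
  have h5 : √(2 * (D : ℝ)) ≤ (2 : ℝ) ^ (3 / 10 * k) := by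
    rw [Real.sqrt_eq_rpow]
    calc (2 * (D : ℝ)) ^ (1 / 2 : ℝ) ≤ ((2 : ℝ) ^ ((1 / 2 + c) * k)) ^ (1 / 2 : ℝ) :=
          Real.rpow_le_rpow (by positivity) hDup (by norm_num)
      _ = (2 : ℝ) ^ ((1 / 2 + c) * k * (1 / 2)) := by rw [← Real.rpow_mul (by norm_num)]
      _ ≤ (2 : ℝ) ^ (3 / 10 * k) := by
          apply pow2_le
          have : (1 / 2 + c) * (1 / 2) ≤ 3 / 10 := by linarith
          calc (1 / 2 + c) * k * (1 / 2) = (1 / 2 + c) * (1 / 2) * k := by ring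
            _ ≤ 3 / 10 * k := mul_le_mul_of_nonneg_right this hk0.le
  have h6 : 0 ≤ Real.log (2 * D) := Real.log_nonneg h2D1r
  have e4 : 256 * K0 * k ^ 2 ≤ cM * (2 : ℝ) ^ (η / 10 * k) := by
    calc 256 * K0 * k ^ 2 = cM * (256 * K0 / cM * k ^ 2) := by
          field_simp
      _ ≤ _ := mul_le_mul_of_nonneg_left hpoly hcM.le
  have e6 : 2 * √(2 * (D : ℝ)) * Real.log (2 * D) ≤ 2 * (2 : ℝ) ^ (3 / 10 * k) * k :=
    mul_le_mul (mul_le_mul_of_nonneg_left h5 (by norm_num)) hlogk h6 (by positivity)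
  refine e6.trans ?_
  rw [div_div, le_div_iff₀ (by positivity)]
  calc 2 * (2 : ℝ) ^ (3 / 10 * k) * k * (32 * K0 * ν * k * 4) =
      ν * (2 : ℝ) ^ (3 / 10 * k) * (256 * K0 * k ^ 2) := by ring
    _ ≤ 1 * (2 : ℝ) ^ (3 / 10 * k) * (cM * (2 : ℝ) ^ (η / 10 * k)) := by
        gcongr
    _ = cM * (2 : ℝ) ^ (3 / 10 * k + η / 10 * k) := by
        rw [Real.rpow_add (by norm_num)]; ring
    _ ≤ cM * (2 : ℝ) ^ ((1 / 2 - c / 100) * k) := by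
        apply mul_le_mul_of_nonneg_left _ hcM.le
        apply pow2_le
        have : 3 / 10 + η / 10 ≤ 1 / 2 - c / 100 := by linarith
        calc 3 / 10 * k + η / 10 * k = (3 / 10 + η / 10) * k := by ring
          _ ≤ (1 / 2 - c / 100) * k := mul_le_mul_of_nonneg_right this hk0.le
    _ ≤ cM * L := mul_le_mul_of_nonneg_left hL1 hcM.le
    _ = L * cM := by ring

/-- choice of the sieve level -/
lemma level {ν k η : ℝ} {B : ℕ} (hk : 100 ≤ k) (hν1 : ν ≤ 1 / 40) (ht1 : 1 ≤ ν * k)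
    (hB : 1 ≤ B) (hBν : 40 * B * ν ≤ η) : ∃ J : ℕ, (2 : ℝ) ^ (ν * k) ≤ (2 : ℝ) ^ 2 ^ J ∧
      (2 : ℝ) ^ J ≤ 2 * (ν * k) ∧ ((2 : ℝ) ^ 2 ^ J) ^ B ≤ (2 : ℝ) ^ (η / 20 * k) ∧
      (J : ℝ) + 2 ≤ 2 * k := by
  obtain ⟨n, hn1, hn2⟩ := exists_nat_pow_near ht1 (one_lt_two)
  have hk0 : 0 < k := by linarith
  have hB0 : (0 : ℝ) < B := by exact_mod_cast hB
  obtain ⟨J, hJ⟩ : ∃ J : ℕ, J = n + 1 := ⟨_, rfl⟩
  rw [← hJ] at hn2
  have hJ2 : (2 : ℝ) ^ J ≤ 2 * (ν * k) := by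
    rw [hJ, pow_succ]; linarith
  have hZr' : (2 : ℝ) ^ 2 ^ J = (2 : ℝ) ^ ((2 : ℝ) ^ J) := by
    rw [← Real.rpow_natCast]
    push_cast
    rfl
  refine ⟨J, ?_, hJ2, ?_, ?_⟩
  · rw [hZr']; exact pow2_le hn2.le
  · rw [hZr', ← Real.rpow_natCast, ← Real.rpow_mul (by norm_num)]
    apply pow2_le
    calc (2 : ℝ) ^ J * B ≤ 2 * (ν * k) * B := mul_le_mul_of_nonneg_right hJ2 hB0.le
      _ = (2 * B * ν) * k := by ring
      _ ≤ η / 20 * k := mul_le_mul_of_nonneg_right (by linarith) hk0.le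
  · have h3 : (J : ℝ) ≤ (2 : ℝ) ^ J := by
      have : J ≤ 2 ^ J := (Nat.lt_two_pow_self).le
      exact_mod_cast this
    have h4 : ν * k ≤ 1 / 40 * k := mul_le_mul_of_nonneg_right hν1 hk0.le
    linarith

/-- the level is admissible -/
lemma cond_bound {η K0 c k ZB x : ℝ} {D : ℕ} (hη1 : η < 1) (hc : 0 < c) (hc10 : c ≤ 1 / 10)
    (hk : 100 ≤ k) (hK00 : 0 < K0) (hK0k : K0 ≤ (2 : ℝ) ^ (1 / 20 * k)) (hZB0 : 0 < ZB)
    (hZB : ZB ≤ (2 : ℝ) ^ (η / 20 * k)) (hDup : 2 * (D : ℝ) ≤ (2 : ℝ) ^ ((1 / 2 + c) * k))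
    (hxr : (2 : ℝ) ^ k ≤ x) : (D : ℝ) ^ (3 / 2 : ℝ) * (K0 * ZB) ≤ x := by
  have hk0 : 0 < k := by linarith
  have hD0 : (0 : ℝ) ≤ D := Nat.cast_nonneg _
  have h3 : (D : ℝ) ^ (3 / 2 : ℝ) ≤ (2 : ℝ) ^ ((1 / 2 + c) * k * (3 / 2)) := by
    rw [Real.rpow_mul (by norm_num)]
    apply Real.rpow_le_rpow hD0 _ (by norm_num)
    linarith
  calc (D : ℝ) ^ (3 / 2 : ℝ) * (K0 * ZB) ≤
      (2 : ℝ) ^ ((1 / 2 + c) * k * (3 / 2)) * ((2 : ℝ) ^ (1 / 20 * k) * (2 : ℝ) ^ (η / 20 * k)) := by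
        apply mul_le_mul h3 _ (by positivity) (by positivity)
        exact mul_le_mul hK0k hZB hZB0.le (by positivity)
    _ = (2 : ℝ) ^ ((1 / 2 + c) * k * (3 / 2) + (1 / 20 * k + η / 20 * k)) := by
        rw [Real.rpow_add (by norm_num), Real.rpow_add (by norm_num)]
    _ ≤ (2 : ℝ) ^ k := by
        apply pow2_le
        have h4 : (1 / 2 + c) * (3 / 2) + (1 / 20 + η / 20) ≤ 1 := by linarith
        calc (1 / 2 + c) * k * (3 / 2) + (1 / 20 * k + η / 20 * k) =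
            ((1 / 2 + c) * (3 / 2) + (1 / 20 + η / 20)) * k := by ring
          _ ≤ 1 * k := mul_le_mul_of_nonneg_right h4 hk0.le
          _ = k := one_mul _
    _ ≤ x := hxr

lemma v_bound {cM t : ℝ} {J : ℕ} (ht : 0 < t) (hJ2 : (2 : ℝ) ^ J ≤ 2 * t)
    (hcz : ∀ z : ℕ, 2 ≤ z → cM ≤ V z * Real.log z) : cM / (2 * t) ≤ V (2 ^ 2 ^ J) := by
  have h3 := hcz (2 ^ 2 ^ J) (by
    calc 2 = 2 ^ 1 := rfl
      _ ≤ 2 ^ 2 ^ J := Nat.pow_le_pow_right (by norm_num) Nat.one_le_two_pow)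
  have h4 : Real.log ((2 ^ 2 ^ J : ℕ) : ℝ) ≤ 2 * t := by
    push_cast
    rw [Real.log_pow]
    push_cast
    have h5 : Real.log 2 ≤ 1 := by linarith [Real.log_two_lt_d9]
    calc (2 : ℝ) ^ J * Real.log 2 ≤ (2 : ℝ) ^ J * 1 := mul_le_mul_of_nonneg_left h5 (by positivity)
      _ ≤ 2 * t := by rw [mul_one]; exact hJ2
  rw [div_le_iff₀ (by positivity)]
  exact h3.trans (mul_le_mul_of_nonneg_left h4 (V_pos _).le)

lemma log_bound {c k : ℝ} {D : ℕ} (hc : 0 < c) (hc10 : c ≤ 1 / 10) (hk : 100 ≤ k) (hD1 : 1 ≤ D)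
    (hDup : 2 * (D : ℝ) ≤ (2 : ℝ) ^ ((1 / 2 + c) * k)) : Real.log (2 * D) ≤ k := by
  have hk0 : 0 < k := by linarith
  have hD0 : (0 : ℝ) < D := by exact_mod_cast hD1
  have h3 : Real.log (2 * D) ≤ Real.log ((2 : ℝ) ^ ((1 / 2 + c) * k)) :=
    Real.log_le_log (by positivity) hDup
  rw [Real.log_rpow (by norm_num)] at h3
  refine h3.trans ?_
  have h5 : Real.log 2 ≤ 1 := by linarith [Real.log_two_lt_d9]
  have h8 : 0 ≤ (1 / 2 + c) * k := by positivity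
  calc (1 / 2 + c) * k * Real.log 2 ≤ (1 / 2 + c) * k * 1 := mul_le_mul_of_nonneg_left h5 h8
    _ = (1 / 2 + c) * k := mul_one _
    _ ≤ 1 * k := mul_le_mul_of_nonneg_right (by linarith) hk0.le
    _ = k := one_mul _

end Pool.Agent.W150.MO
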