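import Mathlib
import Pool.Agent.W150.MO.SN3b

/-!
# S_SN3 of project MO: assembly
-/

set_option autoImplicit false

namespace Pool.Agent.W150.MO

open Finset
open Pool.Agent.W164.MO (b2 S_SN1 S_SN2 S_SN3 S_SN Rough Cand)
open ArithmeticFunction (vonMangoldt)
open Pool.Agent.H318R2.Cr (V Pz mem_Pz V_pos V_le_one cz_bounds)

open Classical in
/-- one block, with all parameters given -/
theorem block_core {η C cM c ν : ℝ} {B K0 k i x L D J : ℕ} (hη0 : 0 < η) (hη1 : η < 1) (hC : 0 < C)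
    (hcM : 0 < cM) (hK0 : 1 ≤ K0) (hc : 0 < c) (hcη : c ≤ η / 10) (hc10 : c ≤ 1 / 10) (hν : 0 < ν)
    (hν1 : ν ≤ 1 / 40) (hk100 : 100 ≤ k) (ht1 : 1 ≤ ν * k) (hck : 1 ≤ c * k)
    (hcz : ∀ z : ℕ, 2 ≤ z → cM ≤ V z * Real.log z)
    (hRM : ∀ (M : ℕ) (Δ b : ℝ), 10 ^ 4 ≤ D → 0 < Δ → Δ ≤ 1 / 2 →
      2 * (D : ℝ) ≤ b → b + 1 ≤ M →
      (D : ℝ) ^ (3 / 2 : ℝ) * (K0 * ((2 : ℝ) ^ 2 ^ J) ^ B) ≤ b → b ≤ (D : ℝ) ^ 3 →
      1 / 2 * (Δ / K0 * Ps D) * V (2 ^ 2 ^ J) -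
        ((J : ℝ) + 2) * (((2 : ℝ) ^ 2 ^ J) ^ B *
          (2 * C * (D : ℝ) ^ (1 - η) * (K0 * ((2 : ℝ) ^ 2 ^ J) ^ B) / Δ)) ≤
      ∑ n ∈ (range M).filter (fun n => ∀ p : ℕ, p.Prime → p ∣ n → 2 ^ 2 ^ J < p), Wt D Δ b n)
    (hpoly1 : 1024 * C * K0 ^ 2 / cM * (k : ℝ) ^ 2 ≤ (2 : ℝ) ^ (η / 10 * k))
    (hpoly2 : 256 * K0 / cM * (k : ℝ) ^ 2 ≤ (2 : ℝ) ^ (η / 10 * k))
    (hK0k : (K0 : ℝ) ≤ (2 : ℝ) ^ (1 / 20 * (k : ℝ)))
    (hx : 2 ^ k ≤ x) (hxL : x + L ≤ 2 ^ (k + 1)) (hL1 : (2 : ℝ) ^ ((1 / 2 - c / 100) * (k : ℝ)) ≤ L)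
    (hL2 : (L : ℝ) ≤ (2 : ℝ) ^ ((k : ℝ) / 2)) (hi1 : (1 / 2 + c / 2) * (k : ℝ) ≤ i)
    (hi2 : (i : ℝ) + 1 ≤ (1 / 2 + c) * k) (hD : D = 2 ^ i) (hPsD : (D : ℝ) / 2 ≤ Ps D)
    (hZlo : (2 : ℝ) ^ (ν * (k : ℝ)) ≤ (2 : ℝ) ^ 2 ^ J) (hJ2 : (2 : ℝ) ^ J ≤ 2 * (ν * k))
    (hZB : ((2 : ℝ) ^ 2 ^ J) ^ B ≤ (2 : ℝ) ^ (η / 20 * (k : ℝ))) (hJk : (J : ℝ) + 2 ≤ 2 * k) :
    cM / (128 * K0 * ν) * L / (k : ℝ) ^ 2 ≤
      ((SS ((2 : ℝ) ^ (ν * (k : ℝ))) D x L).card : ℝ) := by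
  have hK0r : (1 : ℝ) ≤ K0 := by exact_mod_cast hK0
  have hK00 : (0 : ℝ) < K0 := by linarith
  have hkr : (100 : ℝ) ≤ k := by exact_mod_cast hk100
  have hk0 : (0 : ℝ) < k := by linarith
  have hc10k : c * k ≤ 1 / 10 * k := mul_le_mul_of_nonneg_right hc10 hk0.le
  have hDr : (D : ℝ) = (2 : ℝ) ^ (i : ℝ) := by
    rw [hD, Real.rpow_natCast]
    push_cast
    rfl
  have hDlo : (2 : ℝ) ^ ((1 / 2 + c / 2) * (k : ℝ)) ≤ D := by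
    rw [hDr]; exact pow2_le hi1
  have hDup : 2 * (D : ℝ) ≤ (2 : ℝ) ^ ((1 / 2 + c) * (k : ℝ)) := by
    have : 2 * (D : ℝ) = (2 : ℝ) ^ ((i : ℝ) + 1) := by
      rw [Real.rpow_add (by norm_num), Real.rpow_one, hDr]; ring
    rw [this]; exact pow2_le hi2
  have hi50 : 50 ≤ i := by
    have : (50 : ℝ) ≤ i := by linarith
    exact_mod_cast this
  have hD4 : 10 ^ 4 ≤ D := by
    rw [hD]
    calc 10 ^ 4 ≤ 2 ^ 14 := by norm_num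
      _ ≤ 2 ^ i := Nat.pow_le_pow_right (by norm_num) (by omega)
  have hD1 : 1 ≤ D := by omega
  have hD0r : (0 : ℝ) < D := by exact_mod_cast hD1
  have hD1r : (1 : ℝ) ≤ D := by exact_mod_cast hD1
  have hL0 : (0 : ℝ) < L := lt_of_lt_of_le (Real.rpow_pos_of_pos (by norm_num) _) hL1
  have hLn : 1 ≤ L := by exact_mod_cast hL0
  have hLDr : (L : ℝ) ≤ D := by
    refine hL2.trans (le_trans (pow2_le ?_) hDlo)
    linarith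
  have hLD : L ≤ D := by exact_mod_cast hLDr
  have h2k : ((2 : ℝ) ^ (k : ℝ)) = ((2 ^ k : ℕ) : ℝ) := by
    rw [Real.rpow_natCast]; push_cast; rfl
  have hxr : (2 : ℝ) ^ (k : ℝ) ≤ x := by
    rw [h2k]; exact_mod_cast hx
  have h2Dx : 2 * (D : ℝ) ≤ x := by
    refine hDup.trans (le_trans (pow2_le ?_) hxr)
    linarith
  have h2Dxn : 2 * D ≤ x := by exact_mod_cast h2Dx
  have hx1 : 1 ≤ x := by omega
  have hxLr : (x : ℝ) + L ≤ (2 : ℝ) ^ ((k : ℝ) + 1) := by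
    have : ((x + L : ℕ) : ℝ) ≤ ((2 ^ (k + 1) : ℕ) : ℝ) := by exact_mod_cast hxL
    push_cast at this
    rw [Real.rpow_add (by norm_num), Real.rpow_one, Real.rpow_natCast, ← pow_succ]
    exact this
  have hDD : (2 : ℝ) ^ ((k : ℝ) + 1) ≤ (D : ℝ) * D := by
    calc (2 : ℝ) ^ ((k : ℝ) + 1) ≤ (2 : ℝ) ^ ((1 / 2 + c / 2) * (k : ℝ) + (1 / 2 + c / 2) * (k : ℝ)) :=
          pow2_le (by linarith)
      _ = (2 : ℝ) ^ ((1 / 2 + c / 2) * (k : ℝ)) * (2 : ℝ) ^ ((1 / 2 + c / 2) * (k : ℝ)) :=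
          Real.rpow_add (by norm_num) _ _
      _ ≤ D * D := mul_le_mul hDlo hDlo (Real.rpow_nonneg (by norm_num) _) hD0r.le
  have hxDD : x + L ≤ D * D := by
    have : ((x + L : ℕ) : ℝ) ≤ ((D * D : ℕ) : ℝ) := by
      push_cast; exact hxLr.trans hDD
    exact_mod_cast this
  have hZB0 : (0 : ℝ) < ((2 : ℝ) ^ 2 ^ J) ^ B := by positivity
  have hΔ0 : 0 < (L : ℝ) / (4 * D) := by positivity
  have hΔ2 : (L : ℝ) / (4 * D) ≤ 1 / 2 := by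
    rw [div_le_iff₀ (by positivity)]
    linarith
  have hcond := cond_bound (η := η) hη1 hc hc10 hkr hK00 hK0k hZB0 hZB hDup hxr
  have hlow := hRM (x + L + 2) ((L : ℝ) / (4 * D)) (x + (L : ℝ) / 2) hD4 hΔ0 hΔ2 (by linarith) (by
    push_cast; linarith) (hcond.trans (by linarith)) (by
    calc (x : ℝ) + (L : ℝ) / 2 ≤ x + L := by linarith
      _ ≤ D * D := hxLr.trans hDD
      _ = D * D * 1 := (mul_one _).symm
      _ ≤ D * D * D := mul_le_mul_of_nonneg_left hD1r (by positivity)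
      _ = (D : ℝ) ^ 3 := by ring)
  have hRz : ∀ m ∈ (range (x + L + 2)).filter (fun n => ∀ p : ℕ, p.Prime → p ∣ n → 2 ^ 2 ^ J < p),
      Rough ((2 : ℝ) ^ (ν * (k : ℝ))) m := by
    intro m hm p hp hpm
    have h3 := (mem_filter.1 hm).2 p hp hpm
    have h4 : (2 : ℝ) ^ 2 ^ J ≤ p := by
      have : ((2 ^ 2 ^ J : ℕ) : ℝ) ≤ p := by exact_mod_cast h3.le
      refine le_trans (le_of_eq ?_) this
      push_cast; rfl
    exact hZlo.trans h4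
  have hup := block_upper ((2 : ℝ) ^ (ν * (k : ℝ))) D x L (x + L + 2) hD1 hx1 hLn hLD hxDD h2Dxn
    (by omega) _ (filter_subset _ _) hRz
  have hV := v_bound (cM := cM) (t := ν * k) (J := J) (by linarith) hJ2 hcz
  obtain ⟨X, hX⟩ : ∃ X : ℝ, X = L * cM / (32 * K0 * ν * k) := ⟨_, rfl⟩
  have hmain : X ≤ 1 / 2 * ((L : ℝ) / (4 * D) / K0 * Ps D) * V (2 ^ 2 ^ J) := by
    have h3 : X = 1 / 2 * ((L : ℝ) / (4 * D) / K0 * (D / 2)) * (cM / (2 * (ν * k))) := by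
      rw [hX]
      field_simp
      ring
    rw [h3]
    have h4 : (L : ℝ) / (4 * D) / K0 * (D / 2) ≤ (L : ℝ) / (4 * D) / K0 * Ps D :=
      mul_le_mul_of_nonneg_left hPsD (by positivity)
    have h5 : 0 ≤ (L : ℝ) / (4 * D) / K0 * Ps D := mul_nonneg (by positivity) (Ps_nonneg D)
    exact mul_le_mul (by linarith) hV (by positivity) (by linarith)
  have herr := err_bound (η := η) (C := C) (cM := cM) (K0 := K0) (c := c) (ν := ν) (k := k) (J := J)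
    (ZB := ((2 : ℝ) ^ 2 ^ J) ^ B) (D := D) (L := L) hη0 hη1 hC hcM hK00 hc hcη hν (by linarith) hkr
    (Nat.cast_nonneg _) hJk hZB0 hZB hD0r hDup hL0 hL1 hpoly1
  have hlogk := log_bound hc hc10 hkr hD1 hDup
  have hPP := pp_bound (η := η) (cM := cM) (K0 := K0) (c := c) (ν := ν) (k := k) (L := L) hη0 hη1 hcM
    hK00 hc hc10 hν (by linarith) hkr hD1 hDup hL0 hlogk hL1 hpoly2
  rw [← hX] at herr hPP
  obtain ⟨card, hcard⟩ : ∃ card : ℝ, card = ((SS ((2 : ℝ) ^ (ν * (k : ℝ))) D x L).card : ℝ) := ⟨_, rfl⟩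
  rw [← hcard] at hup ⊢
  have hcard0 : 0 ≤ card := by rw [hcard]; exact Nat.cast_nonneg _
  have hfin : X / 4 ≤ k * card := by
    have h3 : Real.log (2 * D) * card ≤ k * card := mul_le_mul_of_nonneg_right hlogk hcard0
    linarith
  have hk2 : (0 : ℝ) < (k : ℝ) ^ 2 := by positivity
  rw [div_le_iff₀ hk2]
  have h3 : cM / (128 * K0 * ν) * L = X / 4 * k := by
    rw [hX]
    field_simp
    ring
  rw [h3]
  calc X / 4 * k ≤ k * card * k := mul_le_mul_of_nonneg_right hfin hk0.le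
    _ = card * (k : ℝ) ^ 2 := by ring

open Classical in
theorem block_lower (h2 : S_SN2) {η C : ℝ} (hη0 : 0 < η) (hη1 : η < 1) (hC : 0 < C)
    (h1 : ∀ D : ℕ, 10 ^ 4 ≤ D → ∀ Y β : ℝ, (D : ℝ) ^ (3 / 2 : ℝ) ≤ Y → Y ≤ (D : ℝ) ^ 3 →
      |∑ q ∈ Ioc D (2 * D), vonMangoldt q * b2 (Y / q + β)| ≤ C * (D : ℝ) ^ (1 - η)) :
    ∃ c₀ : ℝ, 0 < c₀ ∧ c₀ ≤ 1 / 10 ∧ ∀ c : ℝ, 0 < c → c ≤ c₀ → ∃ ν₀ : ℝ, 0 < ν₀ ∧
      ∀ ν : ℝ, 0 < ν → ν ≤ ν₀ → ∃ c₁ : ℝ, 0 < c₁ ∧ ∃ K : ℕ, ∀ k x L : ℕ, K ≤ k →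
        2 ^ k ≤ x → x + L ≤ 2 ^ (k + 1) → (2 : ℝ) ^ ((1 / 2 - c / 100) * (k : ℝ)) ≤ L →
        (L : ℝ) ≤ (2 : ℝ) ^ ((k : ℝ) / 2) → ∀ i : ℕ, (1 / 2 + c / 2) * (k : ℝ) ≤ i →
        (i : ℝ) + 1 ≤ (1 / 2 + c) * k →
        c₁ * L / (k : ℝ) ^ 2 ≤ ((SS ((2 : ℝ) ^ (ν * (k : ℝ))) (2 ^ i) x L).card : ℝ) := by
  obtain ⟨B, K0, hB, hK0, hRM⟩ := rough_mass h2 hC h1
  obtain ⟨cM, cM', hcM, _, hcz⟩ := cz_bounds
  obtain ⟨D0, hPs⟩ := psi_dyadic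
  have hBr : (1 : ℝ) ≤ B := by exact_mod_cast hB
  have hK0r : (1 : ℝ) ≤ K0 := by exact_mod_cast hK0
  have hB0 : (0 : ℝ) < B := by linarith
  have hK00 : (0 : ℝ) < K0 := by linarith
  refine ⟨min (η / 10) (1 / 10), lt_min (by positivity) (by norm_num), min_le_right _ _,
    fun c hc hcc => ⟨η / (40 * B), by positivity, fun ν hν hνν => ?_⟩⟩
  have hcη : c ≤ η / 10 := hcc.trans (min_le_left _ _)
  have hc10 : c ≤ 1 / 10 := hcc.trans (min_le_right _ _)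
  have hBν : 40 * B * ν ≤ η := by
    rw [le_div_iff₀ (by positivity)] at hνν
    linarith
  have hν1 : ν ≤ 1 / 40 := by
    have : 40 * 1 * ν ≤ 40 * B * ν := by gcongr
    linarith
  obtain ⟨K1, hK1⟩ := poly_exp (1024 * C * K0 ^ 2 / cM) (η / 10) (by positivity)
  obtain ⟨K3, hK3⟩ := poly_exp (256 * K0 / cM) (η / 10) (by positivity)
  obtain ⟨K2, hK2⟩ := poly_exp K0 (1 / 20) (by norm_num)
  refine ⟨cM / (128 * K0 * ν), by positivity,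
    K1 + K2 + K3 + 100 + 2 * D0 + ⌈1 / ν⌉₊ + ⌈1 / c⌉₊, ?_⟩
  intro k x L hk hx hxL hL1 hL2 i hi1 hi2
  have hkν : 1 / ν ≤ k := (Nat.le_ceil _).trans (by exact_mod_cast (by omega : ⌈1 / ν⌉₊ ≤ k))
  have hkc : 1 / c ≤ k := (Nat.le_ceil _).trans (by exact_mod_cast (by omega : ⌈1 / c⌉₊ ≤ k))
  have hkr : (100 : ℝ) ≤ k := by exact_mod_cast (by omega : 100 ≤ k)
  have hk0 : (0 : ℝ) < k := by linarith
  have ht1 : 1 ≤ ν * k := by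
    rw [div_le_iff₀ hν] at hkν
    linarith
  have hck : 1 ≤ c * k := by
    rw [div_le_iff₀ hc] at hkc
    linarith
  obtain ⟨J, hZlo, hJ2, hZB, hJk⟩ := level (B := B) hkr hν1 ht1 hB hBν
  obtain ⟨D, hD⟩ : ∃ D : ℕ, D = 2 ^ i := ⟨_, rfl⟩
  have hiD : i ≤ D := by rw [hD]; exact (Nat.lt_two_pow_self).le
  have hD0i : D0 ≤ i := by
    have h3 : (2 * (D0 : ℝ)) ≤ k := by exact_mod_cast (by omega : 2 * D0 ≤ k)
    have : (D0 : ℝ) ≤ i := by linarith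
    exact_mod_cast this
  rw [← hD]
  have hK0k : (K0 : ℝ) ≤ (2 : ℝ) ^ (1 / 20 * (k : ℝ)) := by
    have h3 := hK2 k (by omega)
    have h4 : (K0 : ℝ) * 1 ≤ K0 * (k : ℝ) ^ 2 := by
      apply mul_le_mul_of_nonneg_left _ hK00.le
      have : (1 : ℝ) ≤ k := by linarith
      exact one_le_pow₀ this
    linarith
  exact block_core hη0 hη1 hC hcM hK0 hc hcη hc10 hν hν1 (by omega) ht1 hck (fun z hz => (hcz z hz).1)
    (fun M Δ b => hRM J D M Δ b) (hK1 k (by omega)) (hK3 k (by omega)) hK0k hx hxL hL1 hL2 hi1 hi2 hD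
    (hPs D (hD0i.trans hiD)) hZlo hJ2 hZB hJk

/-- **SN3** -/
theorem sn3 : S_SN3 := by
  classical
  rintro ⟨η, C, hη0, hη1, hC, h1⟩ h2
  obtain ⟨c₀, hc₀, hc₀1, H⟩ := block_lower h2 hη0 hη1 hC h1
  refine ⟨c₀, hc₀, hc₀1, fun c hc hcc => ?_⟩
  obtain ⟨ν₀, hν₀, H2⟩ := H c hc hcc
  refine ⟨ν₀, hν₀, fun ν hν hνν => ?_⟩
  obtain ⟨c₁, hc₁, K, H3⟩ := H2 ν hν hνν
  refine ⟨c * c₁ / 4, by positivity, K + ⌈8 / c⌉₊ + 1, ?_⟩
  intro k x L hk hx hxL hL1 hL2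
  have hkc : 8 / c ≤ k := (Nat.le_ceil _).trans (by exact_mod_cast (by omega : ⌈8 / c⌉₊ ≤ k))
  have hk0 : (0 : ℝ) < k := by exact_mod_cast (by omega : 0 < k)
  have hck : 8 ≤ c * k := by
    rw [div_le_iff₀ hc] at hkc
    linarith
  have hc10 : c ≤ 1 / 10 := hcc.trans hc₀1
  have hL0 : (0 : ℝ) < L := lt_of_lt_of_le (Real.rpow_pos_of_pos (by norm_num) _) hL1
  -- the scales
  set a : ℝ := (1 / 2 + c / 2) * k with ha
  set a' : ℝ := (1 / 2 + c) * k with ha'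
  have haa : a' - a = c * k / 2 := by rw [ha, ha']; ring
  have ha0 : 0 ≤ a := by positivity
  set I : Finset ℕ := Ico ⌈a⌉₊ ⌊a'⌋₊ with hI
  have hI1 : ∀ i ∈ I, a ≤ i ∧ (i : ℝ) + 1 ≤ a' := by
    intro i hi
    rw [hI, mem_Ico] at hi
    refine ⟨(Nat.le_ceil _).trans (by exact_mod_cast hi.1), ?_⟩
    have h3 : ((i + 1 : ℕ) : ℝ) ≤ (⌊a'⌋₊ : ℝ) := by exact_mod_cast hi.2
    push_cast at h3
    exact h3.trans (Nat.floor_le (by positivity))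
  have hIcard : c * k / 4 ≤ (I.card : ℝ) := by
    rw [hI, Nat.card_Ico]
    have h3 : (⌈a⌉₊ : ℝ) < a + 1 := Nat.ceil_lt_add_one ha0
    have h4 : a' < (⌊a'⌋₊ : ℝ) + 1 := Nat.lt_floor_add_one a'
    have h5 : (⌊a'⌋₊ : ℝ) ≤ ((⌊a'⌋₊ - ⌈a⌉₊ : ℕ) : ℝ) + ⌈a⌉₊ := by
      have : ⌊a'⌋₊ ≤ (⌊a'⌋₊ - ⌈a⌉₊) + ⌈a⌉₊ := by omega
      exact_mod_cast this
    linarith
  set S : Finset ℕ := (Ico x (x + L)).filter (fun N => Cand c ν k N) with hS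
  have hsub : I.biUnion (fun i => SS ((2 : ℝ) ^ (ν * (k : ℝ))) (2 ^ i) x L) ⊆ S := by
    intro N hN
    rw [mem_biUnion] at hN
    obtain ⟨i, hi, hN⟩ := hN
    rw [SS, mem_filter] at hN
    obtain ⟨hN1, q, n, hq, hNq, hq1, hq2, hn⟩ := hN
    obtain ⟨hi1, hi2⟩ := hI1 i hi
    rw [hS, mem_filter]
    refine ⟨hN1, q, n, hq, hNq, ?_, ?_, hn⟩
    · have h3 : ((2 ^ i : ℕ) : ℝ) < q := by exact_mod_cast hq1
      have h4 : (2 : ℝ) ^ ((1 / 2 + c / 2) * (k : ℝ)) ≤ ((2 ^ i : ℕ) : ℝ) := by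
        push_cast
        rw [← Real.rpow_natCast]
        exact pow2_le hi1
      exact lt_of_le_of_lt h4 h3
    · have h3 : (q : ℝ) ≤ ((2 * 2 ^ i : ℕ) : ℝ) := by exact_mod_cast hq2
      refine h3.trans ?_
      push_cast
      calc (2 : ℝ) * 2 ^ i = (2 : ℝ) ^ ((i : ℝ) + 1) := by
            rw [Real.rpow_add (by norm_num), Real.rpow_one, Real.rpow_natCast]; ring
        _ ≤ _ := pow2_le hi2
  have hbig : ∀ i ∈ I, 2 ^ (k + 1) ≤ 2 ^ i * 2 ^ i := by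
    intro i hi
    obtain ⟨hi1, hi2⟩ := hI1 i hi
    rw [← pow_add]
    apply Nat.pow_le_pow_right (by norm_num)
    have h3 : ((k + 1 : ℕ) : ℝ) ≤ ((i + i : ℕ) : ℝ) := by
      push_cast
      rw [ha] at hi1
      linarith
    exact_mod_cast h3
  have hx1 : 1 ≤ x := le_trans Nat.one_le_two_pow hx
  have hdisj : (I : Set ℕ).PairwiseDisjoint (fun i => SS ((2 : ℝ) ^ (ν * (k : ℝ))) (2 ^ i) x L) := by
    have key : ∀ i ∈ I, ∀ j ∈ I, i < j → ∀ N, N ∈ SS ((2 : ℝ) ^ (ν * (k : ℝ))) (2 ^ i) x L →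
        N ∉ SS ((2 : ℝ) ^ (ν * (k : ℝ))) (2 ^ j) x L := by
      intro i hi j hj hij N h3 h4
      rw [SS, mem_filter, mem_Ico] at h3 h4
      obtain ⟨hN1, q, n, hq, hNq, hq1, hq2, _⟩ := h3
      obtain ⟨_, q', n', hq', hNq', hq1', hq2', _⟩ := h4
      have h5 : 2 * 2 ^ i ≤ 2 ^ j := by
        rw [← pow_succ']
        exact Nat.pow_le_pow_right (by norm_num) hij
      have h6 : 2 ^ i ≤ 2 ^ j := by omega
      have h7 : q = q' := uniq_prime (D := 2 ^ i) (N := N) (n := n) (n' := n') (by omega)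
        (lt_of_lt_of_le (lt_of_lt_of_le hN1.2 hxL) (hbig i hi)) hq hq' hNq hNq' hq1 (by omega)
      omega
    intro i hi j hj hij
    rw [Function.onFun, disjoint_left]
    intro N h3 h4
    rcases lt_or_gt_of_ne hij with h | h
    · exact key i hi j hj h N h3 h4
    · exact key j hj i hi h N h4 h3
  have hcard : ((I.biUnion (fun i => SS ((2 : ℝ) ^ (ν * (k : ℝ))) (2 ^ i) x L)).card : ℝ) =
      ∑ i ∈ I, ((SS ((2 : ℝ) ^ (ν * (k : ℝ))) (2 ^ i) x L).card : ℝ) := by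
    rw [card_biUnion hdisj]
    push_cast
    rfl
  have h3 : ∑ i ∈ I, c₁ * L / (k : ℝ) ^ 2 ≤ ∑ i ∈ I, ((SS ((2 : ℝ) ^ (ν * (k : ℝ))) (2 ^ i) x L).card : ℝ) := by
    apply sum_le_sum
    intro i hi
    obtain ⟨hi1, hi2⟩ := hI1 i hi
    exact H3 k x L (by omega) hx hxL hL1 hL2 i hi1 hi2
  rw [sum_const, nsmul_eq_mul, ← hcard] at h3
  have h4 : ((I.biUnion (fun i => SS ((2 : ℝ) ^ (ν * (k : ℝ))) (2 ^ i) x L)).card : ℝ) ≤ (S.card : ℝ) := by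
    exact_mod_cast card_le_card hsub
  have h5 : c * c₁ / 4 * L / k = (c * k / 4) * (c₁ * L / (k : ℝ) ^ 2) := by
    field_simp
  rw [h5]
  calc (c * k / 4) * (c₁ * L / (k : ℝ) ^ 2) ≤ I.card * (c₁ * L / (k : ℝ) ^ 2) :=
        mul_le_mul_of_nonneg_right hIcard (by positivity)
    _ ≤ _ := h3.trans h4

end Pool.Agent.W150.MO
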